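import Mathlib
import Pool.Agent.Y703.CX.Stm

/-!
# Project CQ (helper703): the exact proportion in the family of the twists of `X_0(14)`

`D` runs over the products of different primes which are totally split (`1` modulo `8`, a square
modulo `7`) or doubly inert (`3` or `5` modulo `8`, not a square modulo `7`), the number of the primes
`5` modulo `8` being even. The symmetric matrix over `𝔽₂` indexed by the split primes of `D` (the
Laplacian of the quadratic symbols, plus the symbols of the inert primes and an arbitrary function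
on the diagonal) is nonsingular for exactly the proportion `∏_{i ≥ 0} (1 - 2^{-(2i+1)}) = 0.419...`.
Statements of the parts.
-/

set_option autoImplicit false
set_option linter.unusedVariables false

open scoped Classical

namespace Pool.Agent.Y703.CQ

open Finset
open Pool.Agent.Y703.CX (sm la jj XX eL zz kk S_SIE)

/-- the totally split primes -/
def Sp (p : ℕ) : Prop := p.Prime ∧ p % 8 = 1 ∧ (p % 7 = 1 ∨ p % 7 = 2 ∨ p % 7 = 4)

/-- the doubly inert primes -/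
def In (I : Finset ℕ) (r : ℕ) : Prop :=
  r.Prime ∧ r ≠ 3 ∧ r % 8 ∈ I ∧ (r % 7 = 3 ∨ r % 7 = 5 ∨ r % 7 = 6)

/-- the parameters -/
def Ok (I K : Finset ℕ) : Prop := (I = {5} ∨ I = {3, 5}) ∧ (0 ∈ K ∨ (3 ∈ I ∧ 1 ∈ K))

/-- the quadratic symbol, additively -/
noncomputable def nr (p n : ℕ) : ZMod 2 := if IsSquare (n : ZMod p) then 0 else 1

/-- a function set to zero on the inert primes -/
def cu (x : ℕ → ZMod 2) (q : ℕ) : ZMod 2 := if q % 8 = 1 then x q else 0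

/-- the kernel of the matrix -/
def Sol (f : ℕ → ZMod 2) (S : Finset ℕ) (x : ℕ → ZMod 2) : Prop :=
  ∀ p ∈ S, p % 8 = 1 → ∑ q ∈ S, nr p q * (cu x q + x p) + f p * x p = 0

/-- the good sets: the matrix is nonsingular -/
def Gd (f : ℕ → ZMod 2) (S : Finset ℕ) : Prop := ∀ x, Sol f S x → ∀ p ∈ S, p % 8 = 1 → x p = 0

/-- the class of the sets of primes -/
def Cl (I K S : Finset ℕ) : Prop :=
  (∀ p ∈ S, Sp p ∨ In I p) ∧ (S.filter fun p => p % 8 = 5).card % 2 = 0 ∧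
    (S.filter fun p => p % 8 = 3).card % 2 ∈ K

/-- the sets of the class with product at most `X` -/
noncomputable def SS (I K : Finset ℕ) (X : ℕ) : Finset (Finset ℕ) :=
  (range (X + 1)).powerset.filter fun S => Cl I K S ∧ ∏ p ∈ S, p ≤ X

/-- the limit `(1 - 1/2) (1 - 1/8) (1 - 1/32) ⋯` -/
noncomputable def c2 : ℝ := ∏' i : ℕ, (1 - (1 / 2 : ℝ) ^ (2 * i + 1))

/-- the density of the primes of the class -/
noncomputable def dl (I : Finset ℕ) : ℝ := (1 + (I.card : ℝ)) / 8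

/-- FINAL: the proportion of the good sets -/
def S_DQ : Prop := ∀ (I K : Finset ℕ) (f : ℕ → ZMod 2), Ok I K → Filter.Tendsto
  (fun X : ℕ => (((SS I K X).filter (Gd f)).card : ℝ) / ((SS I K X).card : ℝ)) Filter.atTop (nhds c2)

/-- FINAL, in terms of the numbers `D`. -/
def S_DEN : Prop := ∀ (I K : Finset ℕ) (f : ℕ → ZMod 2), Ok I K → Filter.Tendsto
  (fun X : ℕ => (((Icc 1 X).filter fun D => Squarefree D ∧ Cl I K D.primeFactors ∧
      Gd f D.primeFactors).card : ℝ) /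
    (((Icc 1 X).filter fun D => Squarefree D ∧ Cl I K D.primeFactors).card : ℝ))
  Filter.atTop (nhds c2)

/-- CQ-NS: the translation. -/
def S_NS : Prop := S_DQ → S_DEN

/-- the sign -/
noncomputable def sg (a : ZMod 2) : ℂ := if a = 0 then 1 else -1

/-- CQ-BIL: bilinear sums of quadratic symbols. -/
def S_BIL : Prop := ∃ C : ℝ, 1 ≤ C ∧ ∀ (P Q : Finset ℕ) (A B z : ℕ) (c d : ℕ → ℂ),
  (∀ p ∈ P, p.Prime ∧ p % 8 = 1 ∧ p ≤ A) → (∀ q ∈ Q, q.Prime ∧ q ≠ 2 ∧ q ≤ B) →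
  Disjoint P Q → 1 ≤ z → z ≤ A → z ≤ B → (∀ p, ‖c p‖ ≤ 1) → (∀ q, ‖d q‖ ≤ 1) →
  ‖∑ p ∈ P, ∑ q ∈ Q, c p * d q * sg (nr p q)‖ ^ 12 * z ≤ C * ((A : ℝ) * B) ^ 12

/-- the pairs of indices: the first entry in `J₁`, each pair of elements of `J₁` once -/
noncomputable def prs {ι : Type} [Fintype ι] [LinearOrder ι] (J1 : Finset ι) : Finset (ι × ι) :=
  univ.filter fun e => e.1 ∈ J1 ∧ e.2 ≠ e.1 ∧ (e.2 ∈ J1 → e.1 < e.2)

/-- the bilinear hypothesis for a box -/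
def HB {ι : Type} (J1 : Finset ι) (C : ι → Finset ℕ) (X : ι → ℕ) (κ : ℝ) : Prop :=
  ∀ i l : ι, i ≠ l → i ∈ J1 → ∀ c d : ℕ → ℂ, (∀ p, ‖c p‖ ≤ 1) → (∀ q, ‖d q‖ ≤ 1) →
    ‖∑ x ∈ C i, ∑ y ∈ C l, c x * d y * sg (nr x y)‖ ≤ κ * (X i * X l)

/-- CQ-EQ: equidistribution of the symbols of a tuple. -/
def S_EQ : Prop := ∀ (ι : Type) [Fintype ι] [LinearOrder ι] (J1 : Finset ι) (C : ι → Finset ℕ)
  (X : ι → ℕ) (κ : ℝ), 0 ≤ κ → (∀ i, (C i).card ≤ X i) → HB J1 C X κ →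
  ∀ Q : (prs J1 → ZMod 2) → Prop,
    |(((Fintype.piFinset C).filter fun p => Q fun e => nr (p e.1.1) (p e.1.2)).card : ℝ) -
      ((univ.filter Q).card : ℝ) / 2 ^ (prs J1).card * ∏ j, ((C j).card : ℝ)| ≤
    2 ^ (prs J1).card * (κ * ∏ j, (X j : ℝ))

/-- the symbols of a tuple from the free ones -/
noncomputable def ext {ι : Type} [Fintype ι] [LinearOrder ι] {J1 : Finset ι}
    (α : prs J1 → ZMod 2) (k l : ι) : ZMod 2 :=
  if h : (k, l) ∈ prs J1 then α ⟨(k, l), h⟩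
  else if h' : (l, k) ∈ prs J1 ∧ k ∈ J1 then α ⟨(l, k), h'.1⟩ else 0

/-- the block system has only the zero solution -/
def GdA {U J : Type} [Fintype U] [Fintype J] (U1 : Finset U) (J1 : Finset J)
    (A : U → U → ZMod 2) (B : U → J → ZMod 2) (C : J → U → ZMod 2) (R : J → J → ZMod 2)
    (f : U → ZMod 2) (g : J → ZMod 2) : Prop :=
  ∀ (x : U → ZMod 2) (y : J → ZMod 2), (∀ u, u ∉ U1 → x u = 0) → (∀ k, k ∉ J1 → y k = 0) →
    (∀ u ∈ U1, ∑ v, A u v * (x v + x u) + ∑ l, B u l * (y l + x u) + f u * x u = 0) →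
    (∀ k ∈ J1, ∑ u, C k u * (x u + y k) + ∑ l, R k l * (y l + y k) + g k * y k = 0) →
    (∀ u, x u = 0) ∧ ∀ l, y l = 0

/-- CQ-SYM: the number of the nonsingular symmetric matrices over the field with two elements. -/
def S_SYM : Prop := ∀ n : ℕ,
  (Nat.card {M : Matrix (Fin n) (Fin n) (ZMod 2) // M.IsSymm ∧ M.det ≠ 0} : ℝ) =
    2 ^ (n * (n + 1) / 2) * ∏ i ∈ range ((n + 1) / 2), (1 - (1 / 2 : ℝ) ^ (2 * i + 1))

/-- CQ-C2: the infinite product. -/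
def S_C2 : Prop := (∀ n : ℕ, |∏ i ∈ range n, (1 - (1 / 2 : ℝ) ^ (2 * i + 1)) - c2| ≤ (1 / 4 : ℝ) ^ n) ∧
  0 < c2 ∧ c2 < 1 ∧ 0.4194 < c2 ∧ c2 < 0.4195

/-- CQ-LA: the probability that a random symmetric completion is good. -/
def S_LA : Prop := ∀ (U J : Type) [Fintype U] [Fintype J] [LinearOrder J] (U1 : Finset U)
  (J1 : Finset J), (∃ l, l ∉ J1) → ∀ (A : U → U → ZMod 2) (B : U → J → ZMod 2)
  (C : J → U → ZMod 2) (f : U → ZMod 2) (g : J → ZMod 2),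
  (∀ u ∈ U1, ∀ v ∈ U1, A u v = A v u) → (∀ u ∈ U1, ∀ k ∈ J1, B u k = C k u) →
  (∀ w : U → ZMod 2, (∀ u, u ∉ U1 → w u = 0) → (∃ u, w u ≠ 0) → ∃ k ∈ J1, ∑ u, w u * C k u ≠ 0) →
  |((univ.filter fun α : prs J1 → ZMod 2 => GdA U1 J1 A B C (ext α) f g).card : ℝ) /
      2 ^ (prs J1).card - c2| ≤ 2 * (4 ^ U1.card / 2 ^ J1.card)

/-- the labels of the large split primes with respect to the small ones are not degenerate -/
def Nd (S₀ S₁ : Finset ℕ) : Prop :=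
  ∀ w : ℕ → ZMod 2, (∃ u ∈ S₀, u % 8 = 1 ∧ w u ≠ 0) →
    ∃ p ∈ S₁, p % 8 = 1 ∧ ∑ u ∈ S₀.filter (fun u => u % 8 = 1), w u * nr p u ≠ 0

/-- CQ-BOX: the count in a box. -/
def S_BOX : Prop := S_EQ → S_LA → ∀ (f : ℕ → ZMod 2) (ι : Type) [Fintype ι] [LinearOrder ι]
  (J1 : Finset ι) (C : ι → Finset ℕ) (X : ι → ℕ) (κ : ℝ) (S₀ : Finset ℕ), 0 ≤ κ →
  (∀ i, (C i).card ≤ X i) → HB J1 C X κ → (∀ u ∈ S₀, u.Prime ∧ u ≠ 2) →
  (∀ i, ∀ p ∈ C i, p.Prime ∧ p ≠ 2 ∧ p ∉ S₀ ∧ (i ∈ J1 ↔ p % 8 = 1)) →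
  (∀ i l, i ≠ l → Disjoint (C i) (C l)) → (∃ i, i ∉ J1) →
  |(((Fintype.piFinset C).filter fun p => Nd S₀ (univ.image p) ∧ Gd f (S₀ ∪ univ.image p)).card : ℝ) -
      c2 * (((Fintype.piFinset C).filter fun p => Nd S₀ (univ.image p)).card : ℝ)| ≤
    2 * (4 ^ S₀.card / 2 ^ J1.card) *
      (((Fintype.piFinset C).filter fun p => Nd S₀ (univ.image p)).card : ℝ) +
    2 ^ ((2 * S₀.card + 1) * Fintype.card ι + (prs J1).card) * (κ * ∏ j, (X j : ℝ))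

/-- the regular sets -/
noncomputable def RR (I K : Finset ℕ) (X z H k V : ℕ) : Finset (Finset ℕ) :=
  (SS I K X).filter fun S => Set.InjOn (jj H) (la z S : Set ℕ) ∧ S.card ≤ k ∧
    (∏ p ∈ sm z S, p) * ∏ p ∈ la z S, XX H (jj H p) ≤ X ∧
    2 * (sm z S).card + V < ((la z S).filter fun p => p % 8 = 1).card ∧
    ∃ p ∈ la z S, p % 8 ≠ 1

/-- CQ-KEY: the sum over the boxes. -/
def S_KEY : Prop := S_BIL → S_EQ → S_LA → S_BOX → ∃ C : ℝ, 1 ≤ C ∧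
  ∀ (I K : Finset ℕ) (f : ℕ → ZMod 2) (X z H k V N : ℕ) (κ : ℝ), Ok I K → 1 ≤ X → 1 ≤ H → 1 ≤ z →
  0 ≤ κ → C ≤ κ ^ 12 * z → (H : ℝ) * Real.log X < N →
  |(((RR I K X z H k V).filter fun S => Nd (sm z S) (la z S) ∧ Gd f S).card : ℝ) -
      c2 * (((RR I K X z H k V).filter fun S => Nd (sm z S) (la z S)).card : ℝ)| ≤
    2 * (1 / 2 : ℝ) ^ V * ((RR I K X z H k V).card : ℝ) +
    (9 * N + 9 : ℝ) ^ k * (3 ^ (3 * k ^ 2) * κ) * (X * (1 + Real.log X))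

/-- CQ-CNT: sets with many primes, sets near the boundary, sets with two primes in a block. -/
structure CntP : Prop where
  many : ∀ (I K : Finset ℕ) (X k : ℕ), Ok I K → 1 ≤ X →
    (((SS I K X).filter fun S => k < S.card).card : ℝ) * 2 ^ k ≤ X * (1 + Real.log X)
  cut : ∀ (I K : Finset ℕ) (X z H k : ℕ), Ok I K → 1 ≤ X → 1 ≤ H →
    (((SS I K X).filter fun S => S.card ≤ k ∧
      X < (∏ p ∈ sm z S, p) * ∏ p ∈ la z S, XX H (jj H p)).card : ℝ) ≤ X * k / H + 1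
  coll : ∀ (I K : Finset ℕ) (X z H : ℕ), Ok I K → 1 ≤ X → 1 ≤ H → (((SS I K X).filter fun S =>
    ¬ Set.InjOn (jj H) (la z S : Set ℕ)).card : ℝ) ≤ 4 * X * (1 + Real.log X) / H

/-- the sets of split primes on which the product of the primes in `W` is a square -/
noncomputable def HD (W : Finset ℕ) (T : ℕ) : Finset (Finset ℕ) :=
  (range (T + 1)).powerset.filter fun S => (∀ p ∈ S, Sp p ∧ p ∉ W ∧ ∑ u ∈ W, nr p u = 0) ∧
    ∏ p ∈ S, p ≤ T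

/-- CQ-HAL: the logarithmic density for a nontrivial quadratic character. -/
def S_HAL : Prop := ∃ C : ℝ, 1 ≤ C ∧ ∀ (W : Finset ℕ) (T : ℕ), W.Nonempty →
  (∀ u ∈ W, u.Prime ∧ u % 8 = 1) → 2 ≤ T →
  ∑ S ∈ HD W T, (1 : ℝ) / ((∏ p ∈ S, p : ℕ) : ℝ) ≤
    C * (Real.log ((∏ u ∈ W, u : ℕ) : ℝ)) ^ (1 / 2 : ℝ) * (Real.log T) ^ (1 / 16 : ℝ)

/-- CQ-MER: Mertens' theorem modulo `56`. -/
def S_MER : Prop := ∀ a : ℕ, Nat.Coprime a 56 → ∃ C : ℝ, ∀ y : ℕ, 3 ≤ y →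
  |∑ p ∈ (range (y + 1)).filter (fun p => p.Prime ∧ p % 56 = a % 56), (1 : ℝ) / p -
    1 / 24 * Real.log (Real.log y)| ≤ C

/-- CQ-CHE: many primes in the classes modulo `56`. -/
def S_CHE : Prop := ∃ (c : ℝ) (Y₀ : ℕ), 0 < c ∧ ∀ Y : ℕ, Y₀ ≤ Y → ∀ a : ℕ, Nat.Coprime a 56 →
  c * Y / Real.log Y ≤ (((range (Y + 1)).filter fun p => p.Prime ∧ p % 56 = a % 56).card : ℝ)

/-- CQ-BAD: few sets have degenerate labels. -/
def S_BAD : Prop := S_SIE → S_HAL → S_MER → ∀ (I K : Finset ℕ), Ok I K →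
  ∃ (C : ℝ) (X₀ : ℕ), ∀ X : ℕ, X₀ ≤ X →
  (((SS I K X).filter fun S => S.card ≤ kk X ∧ ¬ Nd (sm (zz X) S) (la (zz X) S)).card : ℝ) ≤
    C * X * (Real.log X) ^ (-1 + dl I - 1 / 32 : ℝ)

/-- CQ-FEW: few sets have few large split primes or no large inert prime. -/
def S_FEW : Prop := S_SIE → S_MER → ∀ (I K : Finset ℕ) (V : ℕ), Ok I K →
  ∃ (C : ℝ) (X₀ : ℕ), ∀ X : ℕ, X₀ ≤ X →
  (((SS I K X).filter fun S => ((la (zz X) S).filter fun p => p % 8 = 1).card ≤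
      2 * (sm (zz X) S).card + V ∨ ∀ p ∈ la (zz X) S, p % 8 = 1).card : ℝ) ≤
    C * X * (Real.log X) ^ (-1 + dl I - 1 / 32 : ℝ)

/-- CQ-LOW: the lower bound for the size of the class. -/
def S_LOW : Prop := S_MER → S_CHE → ∀ (I K : Finset ℕ), Ok I K →
  ∃ (c : ℝ) (X₀ : ℕ), 0 < c ∧ ∀ X : ℕ, X₀ ≤ X →
  c * X * (Real.log X) ^ (-1 + dl I : ℝ) ≤ ((SS I K X).card : ℝ)

end Pool.Agent.Y703.CQ
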