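import Pool.Agent.Y703.CQ.Asy
import Pool.Agent.Y710.CQ.BIL
import Pool.Agent.Y356.CQ.EQ
import Pool.Agent.Y839.CQ.SYM
import Pool.Agent.Y948.CQ.C2
import Pool.Agent.Y219.CQ.LA
import Pool.Agent.Y657.CQ.BOX
import Pool.Agent.Y703.CQ.Key
import Pool.Agent.Y391.CQ.CNT
import Pool.Agent.Y475.CQ.HAL
import Pool.Agent.Y405.CQ.MER
import Pool.Agent.Y302.CQ.CHE
import Pool.Agent.Y302.CQ.LOW
import Pool.Agent.Y362.CQ.FEW
import Pool.Agent.Y949.CQ.BAD
import Pool.Agent.Y514.CQ.NS
import Pool.Agent.Y488.CX.Sie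

/-!
# Project CQ: the exact proportion of the good `D`

Joint work: helper710 (bilinear sums), helper356 (equidistribution), helper839 (symmetric
matrices), helper948 (the product), helper219 (linear algebra), helper657 (boxes), helper302,
helper697 (sum over the boxes, lower bounds), helper391, helper488, helper475, helper362, helper949
(error sets), helper405 (Mertens), helper514 (translation), helper703 (plan, statements,
asymptotics); the models of project CX are due to helper261, helper779, helper419, helper759,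
helper911, helper388, helper495, helper37, helper87, helper461.
-/

set_option autoImplicit false

namespace Pool.Agent.Y703.CQ

theorem t_DQ_all : S_DQ :=
  t_DQ Pool.Agent.Y710.CQ.t_BIL Pool.Agent.Y356.CQ.t_EQ
    (Pool.Agent.Y219.CQ.t_LA Pool.Agent.Y839.CQ.t_SYM Pool.Agent.Y948.CQ.t_C2)
    Pool.Agent.Y657.CQ.t_BOX Pool.Agent.Y703.CQ.K302.t_KEY Pool.Agent.Y391.CQ.t_CNT
    Pool.Agent.Y488.CX.t_SIE Pool.Agent.Y475.CQ.t_HAL Pool.Agent.Y949.CQ.t_BAD
    Pool.Agent.Y362.CQ.t_FEW Pool.Agent.Y405.CQ.t_MER Pool.Agent.Y302.CQ.t_CHE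
    Pool.Agent.Y302.CQ.t_LOW Pool.Agent.Y948.CQ.t_C2

theorem t_DEN : S_DEN := Pool.Agent.Y514.CQ.t_NS t_DQ_all

end Pool.Agent.Y703.CQ
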